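import Pool.Agent.N537.RS.Fin
import Pool.Agent.N537.RS.GS
import Pool.Agent.N537.RS.Cal
import Pool.Agent.N537.RS.LT32
import Pool.Agent.N537.RS.AL
import Pool.Agent.N537.RS.Inert
import Pool.Agent.N537.RS.Meas
import Pool.Agent.N537.RS.Int
import Pool.Agent.N537.RS.Cell
import Pool.Agent.N537.RS.LA
import Pool.Agent.N537.RS.Tau
import Pool.Agent.N537.RS.Dual
import Pool.Agent.N537.RS.Kin
import Pool.Agent.N537.RS.Cst2
import Pool.Agent.N537.RS.Hardy
import Pool.Agent.N537.RS.HDim
import Pool.Agent.N537.RS.HRot
import Pool.Agent.N537.RS.HSh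

/-!
# The Lieb-Thirring kinetic inequality with the semiclassical constant for closed shells

A closed shell system with the finite set `Λ` of angular momenta consists of the functions
`u_{l,n,j}(x) = G_{l,n}(|x|) P_{l,j}(x)`, `l ∈ Λ`, where for every `l` the `P_{l,j}` are a full
multiplet of angular momentum `l` (a basis of the spherical harmonics of degree `l`, multiplied by
`|x|^l`). These are the systems which fill whole energy levels of a radial potential. In every
dimension `d ≥ 6` the kinetic inequality holds for all closed shell systems with the semiclassical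
constant, as conjectured by Lieb and Thirring.

Proof for `d ≥ 6`. By duality it suffices to bound, for a radial potential `-V`, the sum over `l` of
`h_l S(ν_l²)`, where `ν_l = l + (d-2)/2`, `h_l` is the number of the spherical harmonics of degree `l`
and `S(λ)` is the sum of the absolute values of the negative eigenvalues of
`-∂_r² + (λ - 1/4)/r² - V(r)` (all operators compressed to a finite dimensional space).
(1) `S` is decreasing and lies above its tangents (it is a supremum of affine functions of `λ`).
(2) The half line `λ > 0` with the measure `2 d(λ^((d-1)/2))/(d-1)!` is cut into cells of mass `h_l`;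
the mean of `λ` over the `l`-th cell is at most `ν_l²`. After the inequality of Hermite and Hadamard
this is the inequality between the geometric and the arithmetic mean of `d - 1` numbers, and it holds
exactly for `d ≥ 6`. Hence `∑ h_l S(ν_l²) ≤ ∫ S(λ) 2 d(λ^((d-1)/2))/(d-1)!`.
(3) `S(λ)` is the integral over `τ > 0` of the number of the negative eigenvalues of
`-∂_t² + λ - e^(2t) (V - τ)` in the logarithmic variable `t = log r`; so the right hand side is the
integral over `τ` of the sum of the powers `(d-1)/2 ≥ 3/2` of the negative eigenvalues of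
`-∂_t² - e^(2t) (V - τ)`, which is bounded by the sharp one dimensional Lieb-Thirring inequality.
(4) The latter is proved here for the exponent `3/2` in the dual form
`(4/3) ∫ ρ² ≤ ∑ ν_i ∫ |ψ_i'|² + (4/27) ∑ ν_i³`, `ρ = ∑ ν_i |ψ_i|²`, `ψ_i` orthonormal, by a matrix
calibration: with `Ψ_i = √ν_i ψ_i`, `G(x) = ∫_(-∞)^x Ψ Ψ*` and `D = diag ν - 2 G` one has
`|Ψ' - c D Ψ|² = |Ψ'|² - c ⟨Ψ, D Ψ⟩' - 2 c |Ψ|⁴ - (c²/6) (tr D³)'`; integrate, `c = 2/3`. Larger
exponents follow by the argument of Aizenman and Lieb.

Also, for every `l` there is a multiplet with exactly `h_l` members (first part of `result`).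

Authors: helper537 (proof, statements, assembly), and helpers 91 (Gram-Schmidt), 291 (calibration),
344 (Lieb-Thirring inequality for the exponent 3/2), 264 (Aizenman-Lieb argument), 5 (inertia), 136
(measurability), 286 (sum of eigenvalues), 619 (cells), 693 (matrix inequality), 615 (Tonelli, dual
inequality), 67 (kinetic inequality), 36 (constant), 695 (Hardy), 710, 130, 297 (existence of full
multiplets: dimension of the harmonic polynomials, rotations, the multiplet).
-/

open MeasureTheory Filter Topology

namespace Pool.Agent.Results.MP_cfe56d_mp.AllClosedShells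

open Pool.Agent.R117.RL Pool.Agent.N537.CS Pool.Agent.N537.RS

/-- The kinetic inequality with the constant `K` for all closed shell systems with angular momenta in
`Λ` and multiplets with `g l` members. -/
def SeveralBound (d : ℕ) (Λ : Finset ℕ) (g : ℕ → ℕ) (K : ℝ) : Prop :=
  ∀ (N : ℕ → ℕ) (P : ∀ l, Fin (g l) → E d → ℝ) (u : ∀ l, Fin (N l) → Fin (g l) → E d → ℂ),
    Mixed Λ g N P u →
    Integrable (fun x => (∑ l ∈ Λ, ∑ n, ∑ j, ‖u l n j x‖ ^ 2) ^ (1 + 2 / (d : ℝ))) ∧
    K * (∫ x, (∑ l ∈ Λ, ∑ n, ∑ j, ‖u l n j x‖ ^ 2) ^ (1 + 2 / (d : ℝ))) ≤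
      ∑ l ∈ Λ, ∑ n, ∑ j, ∫ x, grad2 (u l n j) x

/-- the number of linearly independent spherical harmonics of degree `l` in dimension `d` -/
def harmonics (d l : ℕ) : ℕ := (l + d - 1).choose (d - 1) - (l + d - 3).choose (d - 1)

/-- **The kinetic inequality for closed shells, with the semiclassical constant, in every dimension
`d ≥ 6`.** First part: for every `l` there is a multiplet of angular momentum `l` (`Shell`) with exactly
`harmonics d l` members (the dimension of the space of the spherical harmonics of degree `l`), so that
all closed shell systems are covered. Second part: the inequality. `Mixed Λ g N P u`: for every `l` in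
`Λ` the functions `P l j`, `j < g l`, are a multiplet of angular momentum `l`, and the
`u l n j (x) = G_{l,n}(|x|) P l j (x)`, `n < N l`, are orthonormal with finite kinetic energy
(`ShellSystem`); `grad2 u = |∇u|²`; `Kcl d` is the semiclassical constant. The finite set `Λ` of angular
momenta and the numbers `N l` are arbitrary. -/
theorem result (d : ℕ) (hd : 6 ≤ d) :
    (∀ l : ℕ, ∃ P : Fin (harmonics d l) → E d → ℝ, Shell l P) ∧
    ∀ (Λ : Finset ℕ) (g : ℕ → ℕ), (∀ l ∈ Λ, g l ≤ harmonics d l) → SeveralBound d Λ g (Kcl d) := by
  refine ⟨fun l => t_HSH HD.t_HDIM HR.t_HROT d (by omega) l, fun Λ g hg N P u h => ?_⟩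
  have h32 : S_LT32 := LT.t_LT32 t_CAL
  have hLA : S_LA := LA.t_LA (IT.t_INT IN.t_INERT) (ME.t_MEAS IN.t_INERT) CE.t_CELL
  have hD : S_DUAL := DU.t_DUAL GS.t_GS h32 AL.t_AL hLA TA.t_TAU
  exact FI.final (KI.t_KIN hD CS.t_CST) CS.t_CST (LO.t_LOG t_HARDY) hd Λ g hg N P u h

end Pool.Agent.Results.MP_cfe56d_mp.AllClosedShells
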