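import Pool.Agent.N96.AX.P

/-!
# The Lieb-Thirring kinetic inequality for systems with non-zero angular momenta about an axis

Let `d = k + 2 ≥ 2` and write `ℝ^d = ℂ × ℝ^k`. Let `u_1, …, u_N` be orthonormal and let each `u_n`
have an angular momentum `ℓ_n ≠ 0` for the rotations of the plane `ℂ`:
`u_n(e^{iθ} x, y) = e^{i ℓ_n θ} u_n(x, y)`, with arbitrary dependence on `|x|` and on `y ∈ ℝ^k`
(for `d = 3`: cylindrical coordinates, `u_n = G_n(r, y) e^{i ℓ_n φ}`). Let all `ℓ_n` be in the finite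
set `L` and let
`∑_{l ∈ L} (1 - (l² - 1/4) / μ)_+^((d+1)/2) ≤ C √μ` for all `μ > 0`. Then
`∑ ∫ |∇u_n|² ≥ (C_d / C)^(2/d) K_d^cl ∫ ρ^(1 + 2/d)`,
`C_d = (√3 / 2) ((d+1) / (d+2)) (ω_d / ω_{d-1})`. For `d ≥ 3` the inequality holds with the
semiclassical constant for all systems with angular momenta `1 ≤ |ℓ_n| ≤ 5`.

Proof. For one `l` the functions `f_n = (2 π r)^(1/2) G_n(r, y)` are orthonormal on the half space
`r > 0` of `ℝ^(1+k)`, vanish at `r = 0`, and `∫ |∇u_n|² = ∫ |∇f_n|² + (l² - 1/4) ∫ |f_n|² / r²`. The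
inequality of the starting file `AllDimensions` in dimension `1 + k` gives
`∑_l ∫ K s_l^(1 + 2/(1+k)) + (l² - 1/4) s_l / r²` as a lower bound for the kinetic energy, with
`∑ s_l = 2 π r ρ`, and the pointwise minimum is estimated by Young's inequality and the criterion. If
`L` satisfies the criterion in dimension `d` with `C = C_d`, then also in dimension `d + 2` with
`C_{d+2}`; for `1 ≤ |l| ≤ 5` it is verified in the dimensions three and four.
-/

set_option autoImplicit false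

open MeasureTheory

namespace Pool.Agent.Results.MP_cfe56d_mp.AxialMomenta

/-- The volume of the unit ball of `ℝ^d`. -/
noncomputable def ω (d : ℕ) : ℝ :=
  (volume (Metric.ball (0 : EuclideanSpace ℝ (Fin d)) 1)).toReal

/-- The semiclassical constant `d / (d + 2) * (2π)² / ω_d ^ (2 / d)`. -/
noncomputable def Kcl (d : ℕ) : ℝ :=
  d / (d + 2) * ((2 * Real.pi) ^ 2 / ω d ^ ((2 : ℝ) / d))

/-- The space `ℝ^(k+2) = ℂ × ℝ^k` with the Lebesgue measure. -/
abbrev Space (k : ℕ) : Type := ℂ × (Fin k → ℝ)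

/-- `|∇u|²`: the sum of the squares of the absolute values of the `k + 2` partial derivatives. -/
noncomputable def grad2 {k : ℕ} (u : Space k → ℂ) (z : Space k) : ℝ :=
  ‖fderiv ℝ u z (1, 0)‖ ^ 2 + ‖fderiv ℝ u z (Complex.I, 0)‖ ^ 2 +
    ∑ j, ‖fderiv ℝ u z (0, Pi.single j 1)‖ ^ 2

/-- An orthonormal system of functions `u_n(x, y)` on `ℂ × ℝ^k` such that `u_n` has the angular
momentum `ℓ n` for the rotations of `x`, is continuously differentiable at the points with `x ≠ 0`,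
and has finite kinetic energy. -/
structure AxialSystem {k N : ℕ} (ℓ : Fin N → ℤ) (u : Fin N → Space k → ℂ) : Prop where
  angular : ∀ n (θ : ℝ) x y, u n (Complex.exp (θ * Complex.I) * x, y) =
    Complex.exp (ℓ n * θ * Complex.I) * u n (x, y)
  smooth : ∀ n, ContDiffOn ℝ 1 (u n) {z | z.1 ≠ 0}
  square : ∀ n, Integrable (fun z => ‖u n z‖ ^ 2)
  energy : ∀ n, Integrable (grad2 (u n))
  orthonormal : ∀ n n', ∫ z, star (u n z) * u n' z = if n = n' then (1 : ℂ) else 0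

/-- The density `ρ = ∑ |u_n|²`. -/
noncomputable def density {k N : ℕ} (u : Fin N → Space k → ℂ) (z : Space k) : ℝ :=
  ∑ n, ‖u n z‖ ^ 2

/-- The kinetic energy `∑ ∫ |∇u_n|²`. -/
noncomputable def kinetic {k N : ℕ} (u : Fin N → Space k → ℂ) : ℝ :=
  ∑ n, ∫ z, grad2 (u n) z

/-- `∑_{l ∈ L} (1 - (l² - 1/4) / μ)_+^((d+1)/2) ≤ C √μ` for all `μ > 0`, where `d = k + 2`. -/
def Criterion (k : ℕ) (L : Finset ℤ) (C : ℝ) : Prop :=
  ∀ μ : ℝ, 0 < μ →
    ∑ l ∈ L, (max 0 (1 - ((l : ℝ) ^ 2 - 1 / 4) / μ)) ^ (((k : ℝ) + 3) / 2) ≤ C * √μ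

/-- The critical constant `(√3 / 2) ((d+1) / (d+2)) (ω_d / ω_{d-1})`, where `d = k + 2`. -/
noncomputable def Ccrit (k : ℕ) : ℝ :=
  √3 / 2 * (((k : ℝ) + 3) / (k + 4)) * (ω (k + 2) / ω (k + 1))

/-- Consider an axial system on `ℂ × ℝ^k`, `d = k + 2`.
(1) If the angular momenta are in a finite set `L` of non-zero integers which satisfies the criterion
with the constant `C`, then `(C_d / C)^(2/d) K_d^cl ∫ ρ^(1 + 2/d) ≤ ∑ ∫ |∇u_n|²`.
(2) If `d ≥ 3` and `1 ≤ |ℓ_n| ≤ 5` for all `n`, then `K_d^cl ∫ ρ^(1 + 2/d) ≤ ∑ ∫ |∇u_n|²`. -/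
theorem result (k N : ℕ) (ℓ : Fin N → ℤ) (u : Fin N → Space k → ℂ) (hu : AxialSystem ℓ u) :
    (∀ (L : Finset ℤ) (C : ℝ), (0 : ℤ) ∉ L → (∀ n, ℓ n ∈ L) → 0 < C → Criterion k L C →
      Integrable (fun z => density u z ^ (1 + 2 / ((k + 2 : ℕ) : ℝ))) ∧
      (Ccrit k / C) ^ (2 / ((k + 2 : ℕ) : ℝ)) * Kcl (k + 2) *
        ∫ z, density u z ^ (1 + 2 / ((k + 2 : ℕ) : ℝ)) ≤ kinetic u) ∧
    (1 ≤ k → (∀ n, 1 ≤ |ℓ n| ∧ |ℓ n| ≤ 5) →
      Integrable (fun z => density u z ^ (1 + 2 / ((k + 2 : ℕ) : ℝ))) ∧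
      Kcl (k + 2) * ∫ z, density u z ^ (1 + 2 / ((k + 2 : ℕ) : ℝ)) ≤ kinetic u) := by
  have hdd : 1 + (k + 1) = k + 2 := by omega
  constructor
  · intro L C h0 hℓ hC hcrit
    have hcrit' : Pool.Agent.N96.AX.Crit (k + 1) L C := by
      intro μ hμ
      have h1 := hcrit μ hμ
      have e : (1 + ((k + 1 : ℕ) : ℝ) / 2) = ((k : ℝ) + 3) / 2 := by push_cast; ring
      rw [e]
      exact h1
    have hc : Pool.Agent.N96.AX.Cc (k + 1) = Ccrit k := by
      unfold Pool.Agent.N96.AX.Cc Ccrit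
      have e1 : √(3 / 4 : ℝ) = √3 / 2 := by
        rw [Real.sqrt_div (by norm_num)]
        congr 1
        rw [show (4 : ℝ) = 2 ^ 2 by norm_num]
        exact Real.sqrt_sq (by norm_num)
      have e2 : (((k + 1 : ℕ) : ℝ) + 2) / (((k + 1 : ℕ) : ℝ) + 3) = ((k : ℝ) + 3) / (k + 4) := by
        push_cast
        congr 1 <;> ring
      rw [e1, e2, hdd]
      rfl
    have h := Pool.Agent.N96.AX.critSystem' (k := k) h0 hC hcrit' ℓ hℓ u hu.angular hu.smooth
      hu.square hu.energy hu.orthonormal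
    rw [hc, hdd] at h
    exact h
  · intro hk hℓ
    have hL : ∀ n, ℓ n ∈ Pool.Agent.N96.AX.L5 := by
      intro n
      have h1 := abs_le.1 (hℓ n).2
      have h2 : ℓ n ≠ 0 := abs_pos.1 (by have := (hℓ n).1; omega)
      unfold Pool.Agent.N96.AX.L5
      simp only [Finset.mem_insert, Finset.mem_singleton]
      omega
    have h := Pool.Agent.N96.AX.five hk ℓ hL u hu.angular hu.smooth hu.square hu.energy
      hu.orthonormal
    rw [hdd] at h
    exact h

end Pool.Agent.Results.MP_cfe56d_mp.AxialMomenta
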