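import Pool.Agent.N105.LT.Fin

/-!
# The Lieb-Thirring kinetic inequality with the semiclassical constant and a Fisher information term

For `L²`-orthonormal `u_1, …, u_N` on `ℝ^d` let `γ(x)` be the slice density operator on `L²(ℝ^(d-1))`
with the kernel `Re ∑ u_i(x, y) conj u_i(x, y')` (the real and imaginary parts `w_i` of the `u_i` are
used: its kernel is `∑ w_i(x, y) w_i(x, y')`). Its Fisher information in the variable `x = x_1` is
`F(x) = sup_K (Tr (γ'(x) K) - Tr (K γ(x) K))`, the supremum over the selfadjoint operators `K`; with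
`γ' = L γ + γ L` it is `Tr (L γ L)` (the Bures metric), the least kinetic energy in the direction
`x_1` of a family of functions, orthonormal or not, with the same slice density operators. In
coordinates: `K` has the kernel `∑ P_ij w_i(x, y) w_j(x, y')`, `P` a symmetric matrix, and with the
Gram matrices `R_ij = ∫ w_i w_j dy`, `S_ij = ∫ (∂_1 w_i) w_j dy` the difference is
`2 tr (S P R) - tr (P R P R R)` (`fisher` below). For `d = 1` it is `|(√ρ)'|²`.

Result, in all dimensions `d ≥ 1` and with the exact semiclassical constant: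
`∑ ∫ |∇ u_i|² + 3 ∫ F dx_1 ≥ K_d^cl ∫ ρ^(1 + 2/d)`. More generally, for `0 ≤ θ ≤ 1`, the inequality
holds with `3 θ` for the factor `3` and `((3 + θ)/4)^(1/d) K_d^cl` for `K_d^cl`; `θ = 0` is the known
inequality without error term of the starting library.

Proof. Let `Γ(x)` be the Gram matrix of the restrictions to `x_1 < x`, `B = Γ - 1/2`, `Γ' = R`.
With `φ(s) = -2 artanh (2 s)` one has, pointwise in `x`, the inequality
`tr Q + 3 F ≥ (tr (φ(B) R²))' + (π²/3) tr R³`, `tr Q = ∑ ∫ |∂_1 w_i|² dy`. It follows from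
`|w' - w R φ + w φ R / 2|² ≥ 0`, the definition of `F` and the kernel inequality
`4 ∑ k(a_i - a_j) cosh a_i cosh a_j X_ij (X²)_ij ≥ 4 ∑ a_i² (X³)_ii + (π²/3) tr X³` for positive
semidefinite `X`, `k(w) = w / sinh w`, which is a sum of squares since
`2 k(a - b) = ∫ sech (x - a) sech (x - b) dx`. The other directions are treated with the lifting of
the starting library.
-/

set_option autoImplicit false

open MeasureTheory

namespace Pool.Agent.Results.MP_cfe56d_mp.FisherTerm

/-- The partial derivative `∂_k u (x)`. -/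
noncomputable def pder {d : ℕ} (k : Fin d) (u : (Fin d → ℝ) → ℂ) (x : Fin d → ℝ) : ℂ :=
  fderiv ℝ u x (Pi.single k 1)

/-- The real parts and the imaginary parts of the functions `u_1, …, u_N`. -/
noncomputable def parts {N d : ℕ} (u : Fin N → (Fin d → ℝ) → ℂ) :
    Fin (N + N) → (Fin d → ℝ) → ℝ :=
  Fin.append (fun i x => (u i x).re) (fun i x => (u i x).im)

/-- The Gram matrix `∫ w_i(x, y) w_j(x, y) dy` of the slices. -/
noncomputable def gramR {n m : ℕ} (w : Fin n → (Fin (m + 1) → ℝ) → ℝ) (x : ℝ) :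
    Matrix (Fin n) (Fin n) ℝ :=
  Matrix.of fun i j => ∫ y : Fin m → ℝ,
    w i (Fin.cons x y : Fin (m + 1) → ℝ) * w j (Fin.cons x y : Fin (m + 1) → ℝ)

/-- The mixed Gram matrix `∫ (∂_1 w_i)(x, y) w_j(x, y) dy` of the slices. -/
noncomputable def gramS {n m : ℕ} (w : Fin n → (Fin (m + 1) → ℝ) → ℝ) (x : ℝ) :
    Matrix (Fin n) (Fin n) ℝ :=
  Matrix.of fun i j => ∫ y : Fin m → ℝ,
    fderiv ℝ (w i) (Fin.cons x y : Fin (m + 1) → ℝ) (Pi.single 0 1) *
      w j (Fin.cons x y : Fin (m + 1) → ℝ)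

/-- The Fisher information of the slice density operators of the system `u` at `x_1 = x`. -/
noncomputable def fisher {N m : ℕ} (u : Fin N → (Fin (m + 1) → ℝ) → ℂ) (x : ℝ) : ℝ :=
  ⨆ P : {P : Matrix (Fin (N + N)) (Fin (N + N)) ℝ // ∀ i j, P i j = P j i},
    (2 * (gramS (parts u) x * P.1 * gramR (parts u) x).trace -
      (P.1 * gramR (parts u) x * P.1 * (gramR (parts u) x * gramR (parts u) x)).trace)

/-- The semiclassical constant `d / (d + 2) * (2π)² / ω_d ^ (2 / d)`. -/
noncomputable def Kcl (d : ℕ) : ℝ :=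
  d / (d + 2) * ((2 * Real.pi) ^ 2 /
    (volume (Metric.ball (0 : EuclideanSpace ℝ (Fin d)) 1)).toReal ^ ((2 : ℝ) / d))

/-- **The kinetic inequality with the semiclassical constant and a Fisher information term.**
For all `L²`-orthonormal systems of continuously differentiable functions with compact support on
`ℝ^d`, `d = m + 1`: the Fisher information `F = fisher u` of the slices (a supremum, which is
finite: the first conjunct) is an integrable function between `0` and the kinetic energy density in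
the direction `x_1`, and
`((3 + θ)/4)^(1/d) K_d^cl ∫ ρ^(1 + 2/d) ≤ ∑ ∫ |∇ u_i|² + 3 θ ∫ F` for all `0 ≤ θ ≤ 1`; in
particular (`θ = 1`) `K_d^cl ∫ ρ^(1 + 2/d) ≤ ∑ ∫ |∇ u_i|² + 3 ∫ F`. For `d = 1` one has
`F = (Re ∑ conj u_i u_i')² / ρ = |(√ρ)'|²`. -/
theorem result :
    (∀ (m N : ℕ) (u : Fin N → (Fin (m + 1) → ℝ) → ℂ), (∀ i, ContDiff ℝ 1 (u i)) →
      (∀ i, HasCompactSupport (u i)) →
      (∀ i j, ∫ x, (starRingEnd ℂ) (u i x) * u j x = if i = j then 1 else 0) →
      (∀ (x : ℝ) (P : Matrix (Fin (N + N)) (Fin (N + N)) ℝ), (∀ i j, P i j = P j i) →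
        2 * (gramS (parts u) x * P * gramR (parts u) x).trace -
          (P * gramR (parts u) x * P * (gramR (parts u) x * gramR (parts u) x)).trace ≤
            fisher u x) ∧
      (∀ x, 0 ≤ fisher u x) ∧
      (∀ x, fisher u x ≤ ∫ y : Fin m → ℝ, ∑ i, ‖pder 0 (u i) (Fin.cons x y)‖ ^ 2) ∧
      Integrable (fisher u) ∧
      ∀ θ : ℝ, 0 ≤ θ → θ ≤ 1 →
        ((3 + θ) / 4) ^ (1 / ((m : ℝ) + 1)) * Kcl (m + 1) *
            ∫ x, (∑ i, ‖u i x‖ ^ 2) ^ (1 + 2 / ((m + 1 : ℕ) : ℝ)) ≤
          (∑ i, ∑ k, ∫ x, ‖pder k (u i) x‖ ^ 2) + 3 * θ * ∫ x, fisher u x) ∧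
    (∀ (N : ℕ) (u : Fin N → (Fin 1 → ℝ) → ℂ), (∀ i, ContDiff ℝ 1 (u i)) →
      (∀ i, HasCompactSupport (u i)) → ∀ x : ℝ,
      fisher u x = (∑ i, ((starRingEnd ℂ) (u i fun _ => x) * pder 0 (u i) fun _ => x).re) ^ 2 /
        ∑ i, ‖u i fun _ => x‖ ^ 2) :=
  ⟨fun m N u hu hc ho => Pool.Agent.N105.LT.Fin.part1 m N u hu hc ho,
    fun N u hu hc x => Pool.Agent.N105.LT.Fin.part2 N u hu hc x⟩

end Pool.Agent.Results.MP_cfe56d_mp.FisherTerm
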