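import Pool.Agent.N96.LF.F

/-!
# Localized states in violations of the semiclassical Lieb-Thirring kinetic inequality

Let `u_1, …, u_N ∈ H¹(ℝ^d)` be orthonormal, `T = ∑ ∫ |∇u_n|²`, `ρ = ∑ |u_n|²`, `p = 1 + 2 / d`. If
`T < K_d^cl ∫ ρ^p` then a fixed proportion of `∫ ρ^p` is at points `x` at which the span contains a
normalized function with more than the mass `c` (any `c < √3 / 2`) in the cube of side
`Λ (N / T)^(1/2)` with centre `x`; the length `(N / T)^(1/2)` is the mean wave length. So the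
conjectured inequality holds for all systems without localized functions. There is a version for
the constants `τ K_d^cl` and all `c` with `c² τ^d < 3 / 4`.

Proof. Cut the functions off by `χ((x - y) / R)`. At the `y` where the span has no function localized
near `y` the Gram matrix of the cut functions is at most `c`, and the inequality of the starting file
`AllDimensions` (constant `(3/4)^(1/d) K_d^cl`) improves by the factor `c^(-2/d)`. Then integrate
over `y`; the cross terms vanish and the error is of the order `N / R²`.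
-/

set_option autoImplicit false

open MeasureTheory

namespace Pool.Agent.Results.MP_cfe56d_mp.LocalizedStates

/-- The partial derivative `∂_k φ` of a function on `ℝ^d`. -/
noncomputable def pder {d : ℕ} (k : Fin d) (φ : (Fin d → ℝ) → ℝ) (x : Fin d → ℝ) : ℝ :=
  fderiv ℝ φ x (Pi.single k 1)

/-- `u` belongs to the Sobolev space `H¹(ℝ^d; ℂ)` and has the weak partial derivatives `g k`:
`u` and all `g k` are in `L²(ℝ^d)`, and `∫ u ∂_k φ = - ∫ g_k φ` for every real test function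
`φ ∈ C_c^∞(ℝ^d)`. -/
structure IsSobolev {d : ℕ} (u : (Fin d → ℝ) → ℂ) (g : Fin d → (Fin d → ℝ) → ℂ) : Prop where
  memLp : MemLp u 2 volume
  memLp_deriv : ∀ k, MemLp (g k) 2 volume
  weak : ∀ k (φ : (Fin d → ℝ) → ℝ), ContDiff ℝ (⊤ : ℕ∞) φ → HasCompactSupport φ →
    ∫ x, u x * (pder k φ x : ℂ) = - ∫ x, g k x * (φ x : ℂ)

/-- The density `ρ = ∑ |u_n|²`. -/
noncomputable def density {d N : ℕ} (u : Fin N → (Fin d → ℝ) → ℂ) (x : Fin d → ℝ) : ℝ :=
  ∑ n, ‖u n x‖ ^ 2

/-- The kinetic energy `∑ ∫ |∇ u_n|²`. -/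
noncomputable def kinetic {d N : ℕ} (g : Fin N → Fin d → (Fin d → ℝ) → ℂ) : ℝ :=
  ∑ n, ∑ k, ∫ x, ‖g n k x‖ ^ 2

/-- The semiclassical constant `d / (d + 2) * (2π)² / ω_d ^ (2 / d)`. -/
noncomputable def Kcl (d : ℕ) : ℝ :=
  d / (d + 2) * ((2 * Real.pi) ^ 2 /
    (volume (Metric.ball (0 : EuclideanSpace ℝ (Fin d)) 1)).toReal ^ ((2 : ℝ) / d))

/-- The open cube of side `2 R` with centre `x`. -/
def cube {d : ℕ} (x : Fin d → ℝ) (R : ℝ) : Set (Fin d → ℝ) := {z | ∀ i, |z i - x i| < R}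

/-- The points `x` for which some function `v = ∑ a_n u_n`, `∑ |a_n|² = 1`, of the span has more than
the mass `c` in the cube of side `2 R` with centre `x`: `∫_{cube} |v|² > c`. -/
def Localized {d N : ℕ} (u : Fin N → (Fin d → ℝ) → ℂ) (R c : ℝ) : Set (Fin d → ℝ) :=
  {x | ∃ a : Fin N → ℂ, ∑ n, ‖a n‖ ^ 2 = 1 ∧ c < ∫ z in cube x R, ‖∑ n, a n * u n z‖ ^ 2}

/-- Let `0 < c < 1`, `τ > 0`, `c² τ^d < 3 / 4` and
`α < (c^(-2/d) - τ (4/3)^(1/d)) / (c^(-2/d) - 1)`. There is `Λ` such that for every orthonormal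
system in `H¹(ℝ^d)` of `N` functions with kinetic energy `T`, and for every `R` with `R² T ≥ Λ N`:
if `T < τ K_d^cl ∫ ρ^(1 + 2/d)`, then at least the proportion `α` of `∫ ρ^(1 + 2/d)` is at the points
of `Localized u R c`; and if there are no such points, then `τ K_d^cl ∫ ρ^(1 + 2/d) ≤ T`. -/
theorem result (d : ℕ) (hd : 1 ≤ d) (c τ α : ℝ) (hc : 0 < c) (hc1 : c < 1) (hτ : 0 < τ)
    (hcτ : c ^ 2 * τ ^ d < 3 / 4)
    (hα : α * (c ^ (-(2 / (d : ℝ))) - 1) < c ^ (-(2 / (d : ℝ))) - τ * (4 / 3) ^ (1 / (d : ℝ))) :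
    ∃ Λ : ℝ, 0 < Λ ∧ ∀ (N : ℕ) (u : Fin N → (Fin d → ℝ) → ℂ)
      (g : Fin N → Fin d → (Fin d → ℝ) → ℂ), (∀ n, IsSobolev (u n) (g n)) →
      (∀ n m, ∫ x, (starRingEnd ℂ) (u n x) * u m x = if n = m then 1 else 0) →
      ∀ R : ℝ, 0 < R → Λ * N ≤ R ^ 2 * kinetic g →
        Integrable (fun x => density u x ^ (1 + 2 / (d : ℝ))) ∧ MeasurableSet (Localized u R c) ∧
        (kinetic g < τ * Kcl d * ∫ x, density u x ^ (1 + 2 / (d : ℝ)) →
          α * ∫ x, density u x ^ (1 + 2 / (d : ℝ)) ≤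
            ∫ x in Localized u R c, density u x ^ (1 + 2 / (d : ℝ))) ∧
        (Localized u R c = ∅ →
          τ * Kcl d * ∫ x, density u x ^ (1 + 2 / (d : ℝ)) ≤ kinetic g) := by
  obtain ⟨Λ, hΛ, h⟩ := Pool.Agent.N96.LF.main hd c τ α hc hc1 hτ hcτ hα
  refine ⟨Λ, hΛ, fun N u g hu ho R hR hT => ?_⟩
  have hu' : ∀ n, LTd.WGradC (u n) (g n) := fun n => ⟨(hu n).1, (hu n).2, (hu n).3⟩
  have e : Localized u R c = Pool.Agent.N96.LF.Conc u R c := by
    have e1 : ∀ x : Fin d → ℝ, cube x R = Metric.ball x R := by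
      intro x
      ext z
      rw [Metric.mem_ball, dist_pi_lt_iff hR]
      rfl
    unfold Localized Pool.Agent.N96.LF.Conc
    simp only [e1]
  have h1 := h N u g hu' ho R hR hT
  rw [e]
  exact ⟨h1.1, (Pool.Agent.N96.LF.conc_isOpen u (fun n => (hu' n).f2) R c hR).measurableSet,
    h1.2.1, h1.2.2⟩

end Pool.Agent.Results.MP_cfe56d_mp.LocalizedStates
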